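import Mathlib

/-!
Definitions for the isoperimetric profile of the unit cube.
-/

set_option autoImplicit false
open MeasureTheory
open scoped ENNReal

namespace Pool.Agent.MP_08f2bd_gt.Own

/-- The open unit cube `(0,1)^d` in Euclidean space. -/
def unitCube (d : ℕ) : Set (EuclideanSpace ℝ (Fin d)) := {x | ∀ i, 0 < x i ∧ x i < 1}

/-- The divergence of a vector field: the trace of its derivative. -/
noncomputable def divergence {d : ℕ} (φ : EuclideanSpace ℝ (Fin d) → EuclideanSpace ℝ (Fin d))
    (x : EuclideanSpace ℝ (Fin d)) : ℝ :=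
  LinearMap.trace ℝ (EuclideanSpace ℝ (Fin d)) (fderiv ℝ φ x).toLinearMap

/-- De Giorgi's perimeter of `A` relative to the open set `Ω` (the total variation of the
indicator of `A` in `Ω`): the supremum of `∫_A div φ` over the `C^n` vector fields `φ` with compact
support in `Ω` and Euclidean length at most one. -/
noncomputable def perimeter {d : ℕ} (n : ℕ∞) (Ω A : Set (EuclideanSpace ℝ (Fin d))) : ℝ≥0∞ :=
  ⨆ (φ : EuclideanSpace ℝ (Fin d) → EuclideanSpace ℝ (Fin d))
    (_ : ContDiff ℝ n φ ∧ HasCompactSupport φ ∧ tsupport φ ⊆ Ω ∧ ∀ x, ‖φ x‖ ≤ 1),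
    ENNReal.ofReal (∫ x in A, divergence φ x)

/-- The isoperimetric profile of the cube: the infimum of the relative perimeter over the
Lebesgue measurable subsets of the cube of volume `t`. -/
noncomputable def profile (n : ℕ∞) (d : ℕ) (t : ℝ) : ℝ≥0∞ :=
  ⨅ (A : Set (EuclideanSpace ℝ (Fin d)))
    (_ : NullMeasurableSet A volume ∧ A ⊆ unitCube d ∧ volume A = ENNReal.ofReal t),
    perimeter n (unitCube d) A

end Pool.Agent.MP_08f2bd_gt.Own
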